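import Pool.Agent.N586.LS.Stm

/-!
# LS/GEN: small perturbations of finitely many points of the plane into general position (helper415)
-/

set_option autoImplicit false

namespace Pool.Agent.N586.LS

/-- the points `(n, n ^ 2)` -/
noncomputable def gen_vec (n : ℕ) : EuclideanSpace ℝ (Fin 2) := !₂[(n : ℝ), (n : ℝ) ^ 2]

theorem gen_vec_zero (n : ℕ) : gen_vec n 0 = n := rfl

theorem gen_vec_one (n : ℕ) : gen_vec n 1 = (n : ℝ) ^ 2 := rfl

theorem gen_lin (a b : ℝ) (hb : b ≠ 0) : {d : ℝ | a + b * d = 0}.Finite := by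
  refine (Set.finite_singleton (-a / b)).subset ?_
  intro d hd
  simp only [Set.mem_setOf_eq] at hd
  rw [Set.mem_singleton_iff, eq_div_iff hb]
  linarith

theorem gen_quad (a b c : ℝ) (hc : c ≠ 0) : {d : ℝ | a + b * d + c * d ^ 2 = 0}.Finite := by
  have hp : (Polynomial.C a + Polynomial.C b * Polynomial.X + Polynomial.C c * Polynomial.X ^ 2 :
      Polynomial ℝ) ≠ 0 := by
    intro h
    have h2 := congrArg (fun p : Polynomial ℝ => p.coeff 2) h
    simp [Polynomial.coeff_X, Polynomial.coeff_C] at h2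
    exact hc h2
  refine (Polynomial.finite_setOf_isRoot hp).subset ?_
  intro d hd
  simp only [Set.mem_setOf_eq] at hd
  simp only [Set.mem_setOf_eq, Polynomial.IsRoot.def, Polynomial.eval_add, Polynomial.eval_mul,
    Polynomial.eval_C, Polynomial.eval_X, Polynomial.eval_pow]
  exact hd

theorem gen : S_GEN := by
  intro V x ε hε
  set y : ℝ → ℕ → EuclideanSpace ℝ (Fin 2) := fun d n => x n + d • gen_vec n with hy
  have hy0 : ∀ d n, y d n 0 = x n 0 + d * n := by
    intro d n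
    rw [hy]
    simp only [PiLp.add_apply, PiLp.smul_apply, smul_eq_mul, gen_vec_zero]
  have hy1 : ∀ d n, y d n 1 = x n 1 + d * (n : ℝ) ^ 2 := by
    intro d n
    rw [hy]
    simp only [PiLp.add_apply, PiLp.smul_apply, smul_eq_mul, gen_vec_one]
  -- the bad values
  set B1 : ℕ × ℕ → Set ℝ := fun q => {d : ℝ | q.1 ≠ q.2 ∧ y d q.1 0 = y d q.2 0} with hB1
  set B2 : ℕ × ℕ × ℕ → Set ℝ := fun q => {d : ℝ | (q.1 ≠ q.2.1 ∧ q.1 ≠ q.2.2 ∧ q.2.1 ≠ q.2.2) ∧
    (y d q.2.1 0 - y d q.1 0) * (y d q.2.2 1 - y d q.1 1) =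
      (y d q.2.1 1 - y d q.1 1) * (y d q.2.2 0 - y d q.1 0)} with hB2
  have hB1f : ∀ q, (B1 q).Finite := by
    rintro ⟨u, v⟩
    by_cases huv : u = v
    · refine Set.finite_empty.subset ?_
      rintro d ⟨h, -⟩
      exact absurd huv h
    · have h1 : ((u : ℝ) - v) ≠ 0 := sub_ne_zero.2 (by exact_mod_cast huv)
      refine (gen_lin (x u 0 - x v 0) ((u : ℝ) - v) h1).subset ?_
      rintro d ⟨-, h⟩
      simp only [hy0] at h
      simp only [Set.mem_setOf_eq]
      linarith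
  have hB2f : ∀ q, (B2 q).Finite := by
    rintro ⟨u, v, w⟩
    by_cases huvw : u ≠ v ∧ u ≠ w ∧ v ≠ w
    · have h1 : ((v : ℝ) - u) * ((w : ℝ) - u) * ((w : ℝ) - v) ≠ 0 := by
        refine mul_ne_zero (mul_ne_zero ?_ ?_) ?_
        · exact sub_ne_zero.2 (by exact_mod_cast huvw.1.symm)
        · exact sub_ne_zero.2 (by exact_mod_cast huvw.2.1.symm)
        · exact sub_ne_zero.2 (by exact_mod_cast huvw.2.2.symm)
      refine (gen_quad ((x v 0 - x u 0) * (x w 1 - x u 1) - (x v 1 - x u 1) * (x w 0 - x u 0))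
        ((x v 0 - x u 0) * ((w : ℝ) ^ 2 - (u : ℝ) ^ 2) + (x w 1 - x u 1) * ((v : ℝ) - u) -
          (x v 1 - x u 1) * ((w : ℝ) - u) - (x w 0 - x u 0) * ((v : ℝ) ^ 2 - (u : ℝ) ^ 2))
        _ h1).subset ?_
      rintro d ⟨-, h⟩
      simp only [hy0, hy1] at h
      simp only [Set.mem_setOf_eq]
      linear_combination h
    · refine Set.finite_empty.subset ?_
      rintro d ⟨h, -⟩
      exact absurd h huvw
  set Bad : Set ℝ := (⋃ q ∈ V ×ˢ V, B1 q) ∪ (⋃ q ∈ V ×ˢ V ×ˢ V, B2 q) with hBad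
  have hBadf : Bad.Finite := by
    refine Set.Finite.union ?_ ?_
    · exact Set.Finite.biUnion (Finset.finite_toSet _) fun q _ => hB1f q
    · exact Set.Finite.biUnion (Finset.finite_toSet _) fun q _ => hB2f q
  -- the choice of `d`
  set S : ℝ := ∑ n ∈ V, ‖gen_vec n‖ with hS
  have hS0 : 0 ≤ S := Finset.sum_nonneg fun n _ => norm_nonneg _
  have hd0 : 0 < ε / (1 + S) := by positivity
  obtain ⟨d, ⟨hd1, hd2⟩, hdB⟩ := ((Set.Ioo_infinite hd0).diff hBadf).nonempty
  have hinj : ∀ u ∈ V, ∀ v ∈ V, u ≠ v → y d u ≠ y d v := by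
    intro u hu v hv huv h
    apply hdB
    left
    rw [Set.mem_iUnion₂]
    exact ⟨(u, v), Finset.mem_product.2 ⟨hu, hv⟩, huv, by rw [h]⟩
  refine ⟨y d, fun n hn => ?_, hinj, fun u hu v hv w hw huv hmem => ?_⟩
  · rw [hy, dist_eq_norm]
    simp only [add_sub_cancel_left]
    rw [norm_smul, Real.norm_eq_abs, abs_of_pos hd1]
    have h1 : ‖gen_vec n‖ ≤ S :=
      Finset.single_le_sum (f := fun n => ‖gen_vec n‖) (fun i _ => norm_nonneg _) hn
    have h2 : d * (1 + S) < ε := by rwa [lt_div_iff₀ (by positivity)] at hd2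
    nlinarith [mul_le_mul_of_nonneg_left h1 hd1.le]
  · by_cases hwu : w = u
    · rw [hwu, left_mem_openSegment_iff] at hmem
      exact hinj u hu v hv huv hmem
    by_cases hwv : w = v
    · rw [hwv, right_mem_openSegment_iff] at hmem
      exact hinj u hu v hv huv hmem
    obtain ⟨a, b, -, -, hab, hw'⟩ := hmem
    apply hdB
    right
    rw [Set.mem_iUnion₂]
    refine ⟨(u, v, w), Finset.mem_product.2 ⟨hu, Finset.mem_product.2 ⟨hv, hw⟩⟩,
      ⟨huv, fun h => hwu h.symm, fun h => hwv h.symm⟩, ?_⟩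
    have e0 : y d w 0 = a * y d u 0 + b * y d v 0 := by
      rw [← hw', PiLp.add_apply, PiLp.smul_apply, PiLp.smul_apply, smul_eq_mul, smul_eq_mul]
    have e1 : y d w 1 = a * y d u 1 + b * y d v 1 := by
      rw [← hw', PiLp.add_apply, PiLp.smul_apply, PiLp.smul_apply, smul_eq_mul, smul_eq_mul]
    have ha : a = 1 - b := by linarith
    simp only
    rw [e0, e1, ha]
    ring

end Pool.Agent.N586.LS
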