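import Pool.Agent.N586.LS.Stm

/-!
# Long and short edges: unit circles instead of lines
-/

set_option autoImplicit false

namespace Pool.Agent.N586.LS

open Pool.Agent.NPC.ER Pool.Agent.NPC.ER.Pat
open Filter Topology

theorem Geo_dlt (p0 p1 a0 a1 : ℝ) :
    dist (!₂[p0, p1] : EuclideanSpace ℝ (Fin 2)) !₂[a0, a1] < 1 ↔
      (p0 - a0) ^ 2 + (p1 - a1) ^ 2 < 1 := by
  rw [EuclideanSpace.dist_eq, Real.sqrt_lt' one_pos]
  simp [Fin.sum_univ_two, Real.dist_eq, sq_abs]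

theorem Geo_dgt (p0 p1 a0 a1 : ℝ) :
    1 < dist (!₂[p0, p1] : EuclideanSpace ℝ (Fin 2)) !₂[a0, a1] ↔
      1 < (p0 - a0) ^ 2 + (p1 - a1) ^ 2 := by
  rw [EuclideanSpace.dist_eq, Real.lt_sqrt zero_le_one]
  simp [Fin.sum_univ_two, Real.dist_eq, sq_abs]

theorem Geo_ev (a b : ℝ) (hb : 0 < b) : ∀ᶠ e in 𝓝[>] (0 : ℝ), e * a < b := by
  have h : Tendsto (fun e : ℝ => e * a) (𝓝[>] 0) (𝓝 0) := by
    have h1 : Tendsto (fun e : ℝ => e * a) (𝓝 0) (𝓝 (0 * a)) := tendsto_id.mul_const a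
    rw [zero_mul] at h1
    exact h1.mono_left nhdsWithin_le_nhds
  exact h.eventually_lt_const hb

theorem Geo_core (e c n0 n1 y0 y1 t v : ℝ) (he : 0 < e) (hn : n0 ^ 2 + n1 ^ 2 = 1)
    (ht : t ^ 2 = 1 + (e * c) ^ 2) (ht0 : 0 ≤ t) (hc : e * |c| ≤ 1 / 2)
    (hv : v = c + (y0 * n0 + y1 * n1)) (hy : e * (y0 ^ 2 + y1 ^ 2) < |v|) :
    (0 < v → (e * y0 - (t - e * c) * n0) ^ 2 + (e * y1 - (t - e * c) * n1) ^ 2 < 1 ∧
      1 < (e * y0 - -(t + e * c) * n0) ^ 2 + (e * y1 - -(t + e * c) * n1) ^ 2) ∧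
    (v < 0 → 1 < (e * y0 - (t - e * c) * n0) ^ 2 + (e * y1 - (t - e * c) * n1) ^ 2 ∧
      (e * y0 - -(t + e * c) * n0) ^ 2 + (e * y1 - -(t + e * c) * n1) ^ 2 < 1) := by
  have ht1 : 1 ≤ t := by nlinarith [sq_nonneg (e * c)]
  have hc1 : |e * c| ≤ 1 / 2 := by rwa [abs_mul, abs_of_pos he]
  obtain ⟨hc2, hc3⟩ := abs_le.1 hc1
  have hr : 1 / 2 ≤ t - e * c := by linarith
  have hs : 1 / 2 ≤ t + e * c := by linarith
  have hA : (e * y0 - (t - e * c) * n0) ^ 2 + (e * y1 - (t - e * c) * n1) ^ 2 =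
      1 + e * (e * (y0 ^ 2 + y1 ^ 2)) - 2 * e * (t - e * c) * v := by
    have h1 : (e * y0 - (t - e * c) * n0) ^ 2 + (e * y1 - (t - e * c) * n1) ^ 2 =
      e * (e * (y0 ^ 2 + y1 ^ 2)) - 2 * e * (t - e * c) * (y0 * n0 + y1 * n1) +
        (t - e * c) ^ 2 * (n0 ^ 2 + n1 ^ 2) := by ring
    rw [h1, hn, hv]
    nlinarith [ht]
  have hB : (e * y0 - -(t + e * c) * n0) ^ 2 + (e * y1 - -(t + e * c) * n1) ^ 2 =
      1 + e * (e * (y0 ^ 2 + y1 ^ 2)) + 2 * e * (t + e * c) * v := by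
    have h1 : (e * y0 - -(t + e * c) * n0) ^ 2 + (e * y1 - -(t + e * c) * n1) ^ 2 =
      e * (e * (y0 ^ 2 + y1 ^ 2)) + 2 * e * (t + e * c) * (y0 * n0 + y1 * n1) +
        (t + e * c) ^ 2 * (n0 ^ 2 + n1 ^ 2) := by ring
    rw [h1, hn, hv]
    nlinarith [ht]
  have hyy : 0 ≤ e * (e * (y0 ^ 2 + y1 ^ 2)) := by positivity
  have hlt := mul_lt_mul_of_pos_left hy he
  rw [hA, hB]
  constructor
  · intro hv0
    rw [abs_of_pos hv0] at hlt
    have hev : 0 < e * v := mul_pos he hv0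
    constructor
    · nlinarith [mul_le_mul_of_nonneg_right hr hev.le]
    · nlinarith [mul_le_mul_of_nonneg_right hs hev.le]
  · intro hv0
    rw [abs_of_neg hv0] at hlt
    have hev : 0 < e * (-v) := mul_pos he (by linarith)
    constructor
    · nlinarith [mul_le_mul_of_nonneg_right hr hev.le]
    · nlinarith [mul_le_mul_of_nonneg_right hs hev.le]

theorem geo : S_GEO := by
  intro m M hM ⟨y, η, c, hη, hS⟩
  have hsum : ∀ i j, ∑ k ∈ Finset.range 2, y i k * η j k = y i 0 * η j 0 + y i 1 * η j 1 := by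
    intro i j
    rw [Finset.sum_range_succ, Finset.sum_range_one]
  set ν : ℕ → ℝ := fun j => √(η j 0 ^ 2 + η j 1 ^ 2) with hν
  have hp : ∀ j, 0 < η j 0 ^ 2 + η j 1 ^ 2 := fun j => by
    have := pow_pos (hη j) 2
    positivity
  have hν0 : ∀ j, 0 < ν j := fun j => Real.sqrt_pos.2 (hp j)
  have hν2 : ∀ j, ν j ^ 2 = η j 0 ^ 2 + η j 1 ^ 2 := fun j => Real.sq_sqrt (hp j).le
  set n0 : ℕ → ℝ := fun j => η j 0 / ν j with hn0
  set n1 : ℕ → ℝ := fun j => η j 1 / ν j with hn1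
  set c' : ℕ → ℝ := fun j => c j / ν j with hc'
  set v : ℕ → ℕ → ℝ := fun i j => c' j + (y i 0 * n0 j + y i 1 * n1 j) with hv
  have hn : ∀ j, n0 j ^ 2 + n1 j ^ 2 = 1 := fun j => by
    have h := hν0 j
    simp only [hn0, hn1]
    rw [div_pow, div_pow, ← add_div, ← hν2, div_self (by positivity)]
  have hvW : ∀ i j, v i j * ν j = c j + ∑ k ∈ Finset.range 2, y i k * η j k := by
    intro i j
    have h := (hν0 j).ne'
    rw [hsum]
    simp only [hv, hc', hn0, hn1]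
    field_simp
  have hpos : ∀ i (hi : i < M.length) j (hj : j < M[i].length), M[i][j] = true → 0 < v i j := by
    intro i hi j hj h
    have h1 := hS i hi j hj
    rw [h, sgn_true, one_mul, ← hvW] at h1
    exact (pos_iff_pos_of_mul_pos h1).2 (hν0 j)
  have hneg : ∀ i (hi : i < M.length) j (hj : j < M[i].length), M[i][j] = false → v i j < 0 := by
    intro i hi j hj h
    have h1 := hS i hi j hj
    rw [h, sgn_false, ← hvW] at h1
    have h2 : 0 < (- v i j) * ν j := by linarith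
    have h3 := (pos_iff_pos_of_mul_pos h2).2 (hν0 j)
    linarith
  have hne : ∀ i < M.length, ∀ j < m, 0 < |v i j| := by
    intro i hi j hj
    have hj' : j < M[i].length := by rwa [hM _ (List.getElem_mem hi)]
    rw [abs_pos]
    rcases Bool.eq_false_or_eq_true (M[i][j]) with h | h
    · exact (hpos i hi j hj' h).ne'
    · exact (hneg i hi j hj' h).ne
  have hev : ∀ᶠ e in 𝓝[>] (0 : ℝ), 0 < e ∧ (∀ j ∈ Finset.range m, e * |c' j| < 1 / 2) ∧
      ∀ i ∈ Finset.range M.length, ∀ j ∈ Finset.range m,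
        e * (y i 0 ^ 2 + y i 1 ^ 2) < |v i j| := by
    refine (eventually_mem_nhdsWithin).and (Eventually.and ?_ ?_)
    · rw [Finset.eventually_all]
      intro j _
      exact Geo_ev _ _ (by norm_num)
    · rw [Finset.eventually_all]
      intro i hi
      rw [Finset.eventually_all]
      intro j hj
      exact Geo_ev _ _ (hne i (Finset.mem_range.1 hi) j (Finset.mem_range.1 hj))
  obtain ⟨e, he, he1, he2⟩ := hev.exists
  refine ⟨fun i => !₂[e * y i 0, e * y i 1],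
    fun j => !₂[(√(1 + (e * c' j) ^ 2) - e * c' j) * n0 j, (√(1 + (e * c' j) ^ 2) - e * c' j) * n1 j],
    fun j => !₂[-(√(1 + (e * c' j) ^ 2) + e * c' j) * n0 j,
      -(√(1 + (e * c' j) ^ 2) + e * c' j) * n1 j], ?_⟩
  intro i hi j hj
  have hjm : j < m := by rwa [hM _ (List.getElem_mem hi)] at hj
  obtain ⟨h1, h2⟩ := Geo_core e (c' j) (n0 j) (n1 j) (y i 0) (y i 1) (√(1 + (e * c' j) ^ 2)) (v i j)
    he (hn j) (Real.sq_sqrt (by positivity)) (Real.sqrt_nonneg _)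
    (he1 j (Finset.mem_range.2 hjm)).le rfl
    (he2 i (Finset.mem_range.2 hi) j (Finset.mem_range.2 hjm))
  constructor
  · intro h
    rw [Geo_dlt, Geo_dgt]
    exact h1 (hpos i hi j hj h)
  · intro h
    rw [Geo_dlt, Geo_dgt]
    exact h2 (hneg i hi j hj h)

end Pool.Agent.N586.LS
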