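import Pool.Agent.N586.LS.Stm

/-!
# Long and short edges on complete bipartite graphs: membership in `∃ℝ`
-/

set_option autoImplicit false

namespace Pool.Agent.N586.LS

open Pool.Agent.NPC Pool.Agent.NPC.ER Pool.Agent.NPC.ER.Pat Pool.Agent.NPC.H670R2

/-! ### Geometry -/

/-- A point of the plane is outside an open segment with different ends. -/
theorem mem_segment_iff (a b w : EuclideanSpace ℝ (Fin 2)) (hab : a ≠ b) :
    w ∉ openSegment ℝ a b ↔
      ((a 0 - w 0) * (b 1 - w 1) + -((a 1 - w 1) * (b 0 - w 0)) ≠ 0 ∨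
        0 ≤ (a 0 - w 0) * (b 0 - w 0) + (a 1 - w 1) * (b 1 - w 1)) := by
  constructor
  · intro h
    by_contra hc
    rw [not_or, not_not, not_le] at hc
    obtain ⟨h1, h2⟩ := hc
    apply h
    set p0 := a 0 - w 0 with hp0
    set p1 := a 1 - w 1 with hp1
    set q0 := b 0 - w 0 with hq0
    set q1 := b 1 - w 1 with hq1
    have hP : 0 < p0 ^ 2 + p1 ^ 2 := by
      rcases eq_or_lt_of_le (by positivity : 0 ≤ p0 ^ 2 + p1 ^ 2) with h0 | h0
      · have e0 : p0 = 0 := by nlinarith [sq_nonneg p0, sq_nonneg p1]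
        have e1 : p1 = 0 := by nlinarith [sq_nonneg p0, sq_nonneg p1]
        rw [e0, e1] at h2
        simp at h2
      · exact h0
    set N := p0 ^ 2 + p1 ^ 2 - (p0 * q0 + p1 * q1) with hN
    have hN0 : 0 < N := by linarith
    refine ⟨-(p0 * q0 + p1 * q1) / N, (p0 ^ 2 + p1 ^ 2) / N, div_pos (by linarith) hN0,
      div_pos hP hN0, ?_, ?_⟩
    · field_simp
      rw [hN]
      ring
    · have ea0 : a 0 = p0 + w 0 := by rw [hp0]; ring
      have ea1 : a 1 = p1 + w 1 := by rw [hp1]; ring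
      have eb0 : b 0 = q0 + w 0 := by rw [hq0]; ring
      have eb1 : b 1 = q1 + w 1 := by rw [hq1]; ring
      ext i
      fin_cases i
      · simp only [PiLp.add_apply, PiLp.smul_apply, smul_eq_mul, Fin.zero_eta, Fin.isValue]
        rw [ea0, eb0]
        field_simp
        rw [hN]
        linear_combination (-p1) * h1
      · simp only [PiLp.add_apply, PiLp.smul_apply, smul_eq_mul, Fin.mk_one, Fin.isValue]
        rw [ea1, eb1]
        field_simp
        rw [hN]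
        linear_combination p0 * h1
  · rintro h ⟨s, t, hs, ht, hst, rfl⟩
    have hs' : s = 1 - t := by linarith
    subst hs'
    have hne : a 0 - b 0 ≠ 0 ∨ a 1 - b 1 ≠ 0 := by
      by_contra hc
      rw [not_or, not_not, not_not] at hc
      apply hab
      ext i
      fin_cases i
      · exact sub_eq_zero.1 hc.1
      · exact sub_eq_zero.1 hc.2
    have hpos : 0 < (a 0 - b 0) ^ 2 + (a 1 - b 1) ^ 2 := by
      rcases hne with h0 | h0
      · have := sq_pos_of_ne_zero h0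
        positivity
      · have := sq_pos_of_ne_zero h0
        positivity
    simp only [PiLp.add_apply, PiLp.smul_apply, smul_eq_mul] at h
    rcases h with h | h
    · apply h
      ring
    · have h1 : 0 < (1 - t) * t * ((a 0 - b 0) ^ 2 + (a 1 - b 1) ^ 2) := by positivity
      nlinarith [h1, h]

/-! ### The formula -/

/-- The variable which gives the side of a vertex. -/
def mem_z (u : ℕ) : Tm := Tm.var (u * 3 + 2)

/-- Two vertices are on the same side. -/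
def mem_same (u v : ℕ) : Fm := Fm.eq (mem_z u) (mem_z v)

/-- Two vertices are on different sides. -/
def mem_opp (u v : ℕ) : Fm := Fm.eq (Tm.add (mem_z u) (mem_z v)) Tm.one

/-- Two vertices are at different points. -/
def mem_ne (u v : ℕ) : Fm := Fm.lt Tm.zero (sqT (2 + 1) 2 u v)

/-- The distance is at most one. -/
def mem_le (u v : ℕ) : Fm := Fm.le (sqT (2 + 1) 2 u v) Tm.one

/-- The distance is more than one. -/
def mem_gt (u v : ℕ) : Fm := Fm.lt Tm.one (sqT (2 + 1) 2 u v)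

/-- The determinant of a triple of vertices. -/
def mem_det (u v w : ℕ) : Tm :=
  Tm.add (Tm.mul (difT 3 0 u w) (difT 3 1 v w)) (Tm.neg (Tm.mul (difT 3 1 u w) (difT 3 0 v w)))

/-- The inner product of a triple of vertices. -/
def mem_dot (u v w : ℕ) : Tm :=
  Tm.add (Tm.mul (difT 3 0 u w) (difT 3 0 v w)) (Tm.mul (difT 3 1 u w) (difT 3 1 v w))

/-- If two vertices are on different sides, the third is outside the open segment. -/
def mem_out (u v w : ℕ) : Fm :=
  Fm.or (mem_same u v) (Fm.or (Fm.not (Fm.eq (mem_det u v w) Tm.zero))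
    (Fm.le Tm.zero (mem_dot u v w)))

/-- The conjunction over all triples of vertices. -/
def mem_trip (T : ℕ → ℕ → ℕ → Fm) (g : GCode) : Fm :=
  conj (g.1.flatMap fun u => g.1.flatMap fun v => g.1.map fun w => T u v w)

theorem mem_holds_trip {T : ℕ → ℕ → ℕ → Fm} {g : GCode} (x : ℕ → ℝ) :
    (mem_trip T g).Holds x ↔ ∀ u v w : g.V, (T u.1 v.1 w.1).Holds x := by
  unfold mem_trip
  rw [holds_conj]
  simp only [List.mem_flatMap, List.mem_map]
  constructor
  · exact fun h u v w => h _ ⟨u.1, u.2, v.1, v.2, w.1, w.2, rfl⟩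
  · rintro h φ ⟨u, hu, v, hv, w, hw, rfl⟩
    exact h ⟨u, hu⟩ ⟨v, hv⟩ ⟨w, hw⟩

theorem mem_poly_trip {T : ℕ → ℕ → ℕ → Fm}
    (hT : NPC.Poly (fun p : (ℕ × ℕ) × ℕ => T p.1.1 p.1.2 p.2)) : NPC.Poly (mem_trip T) := by
  have h1 : NPC.Poly (fun q : ((GCode × ℕ) × ℕ) × ℕ => T q.1.1.2 q.1.2 q.2) :=
    hT.comp (NPC.Poly.pair (NPC.Poly.pair (NPC.Poly.snd (NPC.Poly.fst (NPC.Poly.fst NPC.Poly.id)))
      (NPC.Poly.snd (NPC.Poly.fst NPC.Poly.id))) (NPC.Poly.snd NPC.Poly.id))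
  have h2 : NPC.Poly (fun q : (GCode × ℕ) × ℕ => q.1.1.1.map fun w => T q.1.2 q.2 w) :=
    NPC.Poly.map (F := fun (q : (GCode × ℕ) × ℕ) w => T q.1.2 q.2 w)
      (NPC.Poly.fst (NPC.Poly.fst (NPC.Poly.fst NPC.Poly.id))) h1
  have h3 : NPC.Poly (fun p : GCode × ℕ => p.1.1.flatMap fun v => p.1.1.map fun w => T p.2 v w) :=
    NPC.Poly.flatMap (F := fun (p : GCode × ℕ) v => p.1.1.map fun w => T p.2 v w)
      (NPC.Poly.fst (NPC.Poly.fst NPC.Poly.id)) h2
  exact poly_conj (NPC.Poly.flatMap (F := fun (g : GCode) u =>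
    g.1.flatMap fun v => g.1.map fun w => T u v w) (NPC.Poly.fst NPC.Poly.id) h3)

/-- The test of the code. -/
def mem_ok (c : LSCode) : Bool :=
  (decide c.1.WF && c.2.all fun e => decide (e ∈ c.1.2)) && !(c.1.2.isEmpty)

theorem mem_ok_iff (c : LSCode) : mem_ok c = true ↔ Valid c ∧ c.1.2 ≠ [] := by
  unfold mem_ok Valid
  simp only [Bool.and_eq_true, decide_eq_true_eq, List.all_eq_true, Bool.not_eq_true',
    List.isEmpty_eq_false_iff]

theorem mem_poly_ok : NPC.Poly mem_ok := by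
  have h1 : NPC.Poly (fun p : LSCode × (ℕ × ℕ) => decide (p.2 ∈ p.1.1.2)) :=
    (NPC.Poly.decide_mem (NPC.Poly.snd NPC.Poly.id) (NPC.Poly.snd (NPC.Poly.fst (NPC.Poly.fst NPC.Poly.id)))).congr
      fun p => by rw [Bool.eq_iff_iff]; simp
  exact NPC.Poly.and (NPC.Poly.and (poly_wf (NPC.Poly.fst NPC.Poly.id))
    (NPC.Poly.all (p := fun (c : LSCode) e => decide (e ∈ c.1.2)) (NPC.Poly.snd NPC.Poly.id) h1))
    (NPC.Poly.not (NPC.Poly.isEmpty (NPC.Poly.snd (NPC.Poly.fst NPC.Poly.id))))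

/-- The formula of LONG-SHORT. -/
def memF (c : LSCode) : Fm :=
  if mem_ok c then
    Fm.and (vertF (fun u => Fm.eq (Tm.mul (mem_z u) (mem_z u)) (mem_z u)) c.1)
      (Fm.and (pairF (fun u v => Fm.and (mem_ne u v) (mem_opp u v))
          (fun u v => Fm.and (mem_ne u v) (mem_same u v)) c.1)
        (Fm.and (pairF mem_le (fun u v => Fm.or (mem_same u v) (mem_gt u v)) (c.1.1, c.2))
          (mem_trip mem_out c.1)))
  else ff

theorem mem_poly : NPC.Poly memF := by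
  have z : ∀ {α : Type} [TEnc α] {i : α → ℕ}, NPC.Poly i → NPC.Poly (fun a => mem_z (i a)) :=
    fun hi => poly_tvar (NPC.Poly.add (NPC.Poly.mul hi (NPC.Poly.const _)) (NPC.Poly.const _))
  have p1 : NPC.Poly (fun p : ℕ × ℕ => p.1) := NPC.Poly.fst NPC.Poly.id
  have p2 : NPC.Poly (fun p : ℕ × ℕ => p.2) := NPC.Poly.snd NPC.Poly.id
  have hs : NPC.Poly (fun p : ℕ × ℕ => mem_same p.1 p.2) := poly_eq (z p1) (z p2)
  have ho : NPC.Poly (fun p : ℕ × ℕ => mem_opp p.1 p.2) :=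
    poly_eq (poly_tadd (z p1) (z p2)) (NPC.Poly.const _)
  have hq : NPC.Poly (fun p : ℕ × ℕ => sqT (2 + 1) 2 p.1 p.2) := poly_sqT p1 p2 (2 + 1) 2
  have hn : NPC.Poly (fun p : ℕ × ℕ => mem_ne p.1 p.2) := poly_lt (NPC.Poly.const _) hq
  have hl : NPC.Poly (fun p : ℕ × ℕ => mem_le p.1 p.2) := poly_le hq (NPC.Poly.const _)
  have hg : NPC.Poly (fun p : ℕ × ℕ => mem_gt p.1 p.2) := poly_lt (NPC.Poly.const _) hq
  have q1 : NPC.Poly (fun p : (ℕ × ℕ) × ℕ => p.1.1) := NPC.Poly.fst (NPC.Poly.fst NPC.Poly.id)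
  have q2 : NPC.Poly (fun p : (ℕ × ℕ) × ℕ => p.1.2) := NPC.Poly.snd (NPC.Poly.fst NPC.Poly.id)
  have q3 : NPC.Poly (fun p : (ℕ × ℕ) × ℕ => p.2) := NPC.Poly.snd NPC.Poly.id
  have df : ∀ {α : Type} [TEnc α] {u v : α → ℕ} (k : ℕ), NPC.Poly u → NPC.Poly v →
      NPC.Poly (fun a => difT 3 k (u a) (v a)) := fun k hu hv =>
    poly_tadd (poly_tvar (NPC.Poly.add (NPC.Poly.mul hu (NPC.Poly.const _)) (NPC.Poly.const _)))
      (poly_tneg (poly_tvar (NPC.Poly.add (NPC.Poly.mul hv (NPC.Poly.const _)) (NPC.Poly.const _))))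
  have ht : NPC.Poly (fun p : (ℕ × ℕ) × ℕ => mem_out p.1.1 p.1.2 p.2) :=
    poly_or (hs.comp (NPC.Poly.fst NPC.Poly.id)) (poly_or (poly_not (poly_eq
      (poly_tadd (poly_tmul (df 0 q1 q3) (df 1 q2 q3))
        (poly_tneg (poly_tmul (df 1 q1 q3) (df 0 q2 q3)))) (NPC.Poly.const _)))
      (poly_le (NPC.Poly.const _) (poly_tadd (poly_tmul (df 0 q1 q3) (df 0 q2 q3))
        (poly_tmul (df 1 q1 q3) (df 1 q2 q3)))))
  have hz : NPC.Poly (fun u : ℕ => Fm.eq (Tm.mul (mem_z u) (mem_z u)) (mem_z u)) :=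
    poly_eq (poly_tmul (z NPC.Poly.id) (z NPC.Poly.id)) (z NPC.Poly.id)
  have hv := (poly_vertF hz).comp (NPC.Poly.fst (NPC.Poly.id : NPC.Poly (fun c : LSCode => c)))
  have hp := (poly_pairF (F := fun u v => Fm.and (mem_ne u v) (mem_opp u v))
    (F' := fun u v => Fm.and (mem_ne u v) (mem_same u v)) (poly_and hn ho)
    (poly_and hn hs)).comp (NPC.Poly.fst (NPC.Poly.id : NPC.Poly (fun c : LSCode => c)))
  have hr := (poly_pairF (F := mem_le) (F' := fun u v => Fm.or (mem_same u v) (mem_gt u v)) hl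
    (poly_or hs hg)).comp (NPC.Poly.pair (NPC.Poly.fst (NPC.Poly.fst (NPC.Poly.id : NPC.Poly (fun c : LSCode => c))))
      (NPC.Poly.snd (NPC.Poly.id : NPC.Poly (fun c : LSCode => c))))
  have hw := (mem_poly_trip ht).comp (NPC.Poly.fst (NPC.Poly.id : NPC.Poly (fun c : LSCode => c)))
  exact NPC.Poly.ite (mem_poly_ok.congr fun a => by simp) (poly_and hv (poly_and hp (poly_and hr hw))) (NPC.Poly.const ff)

theorem mem_ne_holds (x : ℕ → ℝ) (u v : ℕ) : (mem_ne u v).Holds x ↔ ofB 2 x u ≠ ofB 2 x v := by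
  simp only [mem_ne, Fm.Holds, sqT_ofB, Tm.eval]
  constructor
  · intro h he
    rw [he, dist_self] at h
    norm_num at h
  · intro h
    have := dist_pos.2 h
    positivity

theorem mem_le_holds (x : ℕ → ℝ) (u v : ℕ) :
    (mem_le u v).Holds x ↔ dist (ofB 2 x u) (ofB 2 x v) ≤ 1 := by
  simp only [mem_le, Fm.Holds, sqT_ofB, Tm.eval]
  exact pow_le_one_iff_of_nonneg dist_nonneg (by norm_num)

theorem mem_gt_holds (x : ℕ → ℝ) (u v : ℕ) :
    (mem_gt u v).Holds x ↔ 1 < dist (ofB 2 x u) (ofB 2 x v) := by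
  simp only [mem_gt, Fm.Holds, sqT_ofB, Tm.eval]
  exact one_lt_pow_iff_of_nonneg dist_nonneg (by norm_num)

theorem mem_out_holds (x : ℕ → ℝ) (u v w : ℕ) (h : ofB 2 x u ≠ ofB 2 x v) :
    (mem_out u v w).Holds x ↔ (x (u * 3 + 2) = x (v * 3 + 2) ∨
      ofB 2 x w ∉ openSegment ℝ (ofB 2 x u) (ofB 2 x v)) := by
  rw [mem_segment_iff _ _ _ h]
  simp only [mem_out, mem_same, mem_z, mem_det, mem_dot, difT, Fm.Holds, Tm.eval]
  have e0 : ∀ u, ofB 2 x u 0 = x (u * 3 + 0) := fun u => rfl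
  have e1 : ∀ u, ofB 2 x u 1 = x (u * 3 + 1) := fun u => rfl
  simp only [e0, e1, sub_eq_add_neg, ne_eq]

theorem mem_key (c : LSCode) (hv : Valid c) (x : ℕ → ℝ) :
    (Fm.and (vertF (fun u => Fm.eq (Tm.mul (mem_z u) (mem_z u)) (mem_z u)) c.1)
      (Fm.and (pairF (fun u v => Fm.and (mem_ne u v) (mem_opp u v))
          (fun u v => Fm.and (mem_ne u v) (mem_same u v)) c.1)
        (Fm.and (pairF mem_le (fun u v => Fm.or (mem_same u v) (mem_gt u v)) (c.1.1, c.2))
          (mem_trip mem_out c.1)))).Holds x ↔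
    (∀ u : c.1.V, x (u.1 * 3 + 2) * x (u.1 * 3 + 2) = x (u.1 * 3 + 2)) ∧
    (∀ u v : c.1.V, u ≠ v → (c.1.graph.Adj u v → ofB 2 x u.1 ≠ ofB 2 x v.1 ∧
        x (u.1 * 3 + 2) + x (v.1 * 3 + 2) = 1) ∧ (¬ c.1.graph.Adj u v →
        ofB 2 x u.1 ≠ ofB 2 x v.1 ∧ x (u.1 * 3 + 2) = x (v.1 * 3 + 2))) ∧
    (∀ u v : c.1.V, u ≠ v → (Short c u v → dist (ofB 2 x u.1) (ofB 2 x v.1) ≤ 1) ∧
      (¬ Short c u v → x (u.1 * 3 + 2) = x (v.1 * 3 + 2) ∨
        1 < dist (ofB 2 x u.1) (ofB 2 x v.1))) ∧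
    (∀ u v w : c.1.V, (mem_out u.1 v.1 w.1).Holds x) := by
  have hg : c.1.WF := hv.1
  have hg' : GCode.WF (c.1.1, c.2) := fun e he => hg e (hv.2 e he)
  rw [Fm.Holds, holds_vertF, Fm.Holds, holds_pairF hg, Fm.Holds, holds_pairF hg', mem_holds_trip]
  refine and_congr Iff.rfl (and_congr ?_ (and_congr ?_ Iff.rfl))
  · refine forall_congr' fun u => forall_congr' fun v => imp_congr Iff.rfl ?_
    simp only [Fm.Holds, mem_ne_holds, mem_opp, mem_same, mem_z, Tm.eval]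
  · refine forall_congr' fun u => forall_congr' fun v => imp_congr Iff.rfl ?_
    refine and_congr (imp_congr (graph_adj hg') (mem_le_holds x _ _))
      (imp_congr (not_congr (graph_adj hg')) (or_congr Iff.rfl (mem_gt_holds x _ _)))

theorem mem_correct (c : LSCode) :
    (Valid c ∧ IsCompleteBipartite c.1.graph ∧ ∃ x, Realizes c x) ↔ ETR (memF c) := by
  classical
  unfold memF
  by_cases hv : Valid c
  swap
  · rw [if_neg (fun h => hv ((mem_ok_iff c).1 h).1)]
    exact ⟨fun h => absurd h.1 hv, fun h => absurd h not_etr_ff⟩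
  by_cases hne : c.1.2 = []
  · rw [if_neg (fun h => ((mem_ok_iff c).1 h).2 hne)]
    refine ⟨fun h => ?_, fun h => absurd h not_etr_ff⟩
    exfalso
    obtain ⟨-, ⟨A, ⟨u, hu⟩, ⟨v, hv'⟩, hA⟩, -⟩ := h
    have h1 := (hA u v).2 ⟨fun _ => hv', fun _ => hu⟩
    rw [graph_adj hv.1, hne] at h1
    simp at h1
  rw [if_pos ((mem_ok_iff c).2 ⟨hv, hne⟩)]
  have hg : c.1.WF := hv.1
  have hshort : ∀ u v : c.1.V, Short c u v → c.1.graph.Adj u v := fun u v h =>
    (graph_adj hg).2 (h.imp (hv.2 _) (hv.2 _))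
  constructor
  · rintro ⟨-, ⟨A, -, -, hA⟩, x, ⟨hinj, hseg⟩, hx⟩
    obtain ⟨y, hy⟩ := exists_ofX (d := 3) (g := c.1) (fun v => WithLp.toLp 2
      (![x v 0, x v 1, if v ∈ A then 1 else 0] : Fin 3 → ℝ))
    have h0 : ∀ v : c.1.V, y (v.1 * 3 + 0) = x v 0 := fun v =>
      congrArg (fun p : EuclideanSpace ℝ (Fin 3) => p 0) (hy v)
    have h1 : ∀ v : c.1.V, y (v.1 * 3 + 1) = x v 1 := fun v =>
      congrArg (fun p : EuclideanSpace ℝ (Fin 3) => p 1) (hy v)
    have h2 : ∀ v : c.1.V, y (v.1 * 3 + 2) = if v ∈ A then 1 else 0 := fun v =>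
      congrArg (fun p : EuclideanSpace ℝ (Fin 3) => p 2) (hy v)
    have h3 : ∀ v : c.1.V, ofB 2 y v.1 = x v := by
      intro v
      ext i
      fin_cases i
      · exact h0 v
      · exact h1 v
    have hz : ∀ u v : c.1.V, y (u.1 * 3 + 2) ≠ y (v.1 * 3 + 2) → c.1.graph.Adj u v := by
      intro u v h
      rw [h2, h2] at h
      rw [hA]
      by_cases hu : u ∈ A <;> by_cases hv' : v ∈ A <;> simp_all
    refine ⟨y, (mem_key c hv y).2 ⟨?_, ?_, ?_, ?_⟩⟩
    · intro u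
      rw [h2]
      split_ifs <;> norm_num
    · intro u v huv
      rw [h3, h3, h2, h2]
      refine ⟨fun h => ⟨fun e => huv (hinj e), ?_⟩, fun h => ⟨fun e => huv (hinj e), ?_⟩⟩
      · rw [hA] at h
        by_cases hu : u ∈ A <;> by_cases hv' : v ∈ A <;> simp_all
      · rw [hA] at h
        by_cases hu : u ∈ A <;> by_cases hv' : v ∈ A <;> simp_all
    · intro u v huv
      rw [h3, h3]
      refine ⟨fun h => (hx u v (hshort u v h)).1 h, fun h => ?_⟩
      by_cases h4 : y (u.1 * 3 + 2) = y (v.1 * 3 + 2)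
      · exact Or.inl h4
      · right
        by_contra h5
        exact h ((hx u v (hz u v h4)).2 (not_lt.1 h5))
    · intro u v w
      by_cases huv : u = v
      · subst huv
        exact Or.inl rfl
      · rw [mem_out_holds y u.1 v.1 w.1 (by rw [h3, h3]; exact fun e => huv (hinj e))]
        by_cases h4 : y (u.1 * 3 + 2) = y (v.1 * 3 + 2)
        · exact Or.inl h4
        · right
          rw [h3, h3, h3]
          exact hseg u v w (hz u v h4)
  · rintro ⟨y, hy⟩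
    obtain ⟨k1, k2, k3, k4⟩ := (mem_key c hv y).1 hy
    have z01 : ∀ u : c.1.V, y (u.1 * 3 + 2) = 0 ∨ y (u.1 * 3 + 2) = 1 := by
      intro u
      have h1 := k1 u
      have h2 : y (u.1 * 3 + 2) * (y (u.1 * 3 + 2) - 1) = 0 := by linarith
      rcases mul_eq_zero.1 h2 with h3 | h3
      · exact Or.inl h3
      · exact Or.inr (by linarith)
    have hadj : ∀ u v : c.1.V, c.1.graph.Adj u v →
        (y (u.1 * 3 + 2) = 1 ∧ y (v.1 * 3 + 2) = 0) ∨ (y (u.1 * 3 + 2) = 0 ∧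
          y (v.1 * 3 + 2) = 1) := by
      intro u v h
      have h1 := ((k2 u v h.ne).1 h).2
      rcases z01 u with h2 | h2
      · exact Or.inr ⟨h2, by linarith⟩
      · exact Or.inl ⟨h2, by linarith⟩
    have hnadj : ∀ u v : c.1.V, ¬ c.1.graph.Adj u v → y (u.1 * 3 + 2) = y (v.1 * 3 + 2) := by
      intro u v h
      by_cases huv : u = v
      · rw [huv]
      · exact ((k2 u v huv).2 h).2
    have hpt : ∀ u v : c.1.V, u ≠ v → ofB 2 y u.1 ≠ ofB 2 y v.1 := by
      intro u v huv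
      by_cases h : c.1.graph.Adj u v
      · exact ((k2 u v huv).1 h).1
      · exact ((k2 u v huv).2 h).1
    refine ⟨hv, ⟨{u | y (u.1 * 3 + 2) = 1}, ?_, ?_, ?_⟩, fun v => ofB 2 y v.1, ⟨?_, ?_⟩, ?_⟩
    · obtain ⟨e, he⟩ := List.exists_mem_of_ne_nil _ hne
      obtain ⟨e1, e2, -⟩ := hg e he
      have h := (graph_adj hg (u := ⟨e.1, e1⟩) (v := ⟨e.2, e2⟩)).2 (Or.inl he)
      rcases hadj _ _ h with h1 | h1
      · exact ⟨⟨e.1, e1⟩, h1.1⟩
      · exact ⟨⟨e.2, e2⟩, h1.2⟩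
    · obtain ⟨e, he⟩ := List.exists_mem_of_ne_nil _ hne
      obtain ⟨e1, e2, -⟩ := hg e he
      have h := (graph_adj hg (u := ⟨e.1, e1⟩) (v := ⟨e.2, e2⟩)).2 (Or.inl he)
      rcases hadj _ _ h with h1 | h1
      · exact ⟨⟨e.2, e2⟩, fun (h2 : y (e.2 * 3 + 2) = 1) => by
          have h3 : y (e.2 * 3 + 2) = 0 := h1.2
          rw [h3] at h2
          norm_num at h2⟩
      · exact ⟨⟨e.1, e1⟩, fun (h2 : y (e.1 * 3 + 2) = 1) => by
          have h3 : y (e.1 * 3 + 2) = 0 := h1.1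
          rw [h3] at h2
          norm_num at h2⟩
    · intro u v
      simp only [Set.mem_ofPred_eq]
      constructor
      · intro h
        rcases hadj u v h with ⟨h1, h2⟩ | ⟨h1, h2⟩
        · rw [h1, h2]
          norm_num
        · rw [h1, h2]
          norm_num
      · intro h
        by_contra h1
        rw [hnadj u v h1] at h
        tauto
    · intro u v h
      by_contra huv
      exact hpt u v huv h
    · intro u v w h
      have h1 := (mem_out_holds y u.1 v.1 w.1 (hpt u v h.ne)).1 (k4 u v w)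
      refine h1.resolve_left fun h2 => ?_
      rcases hadj u v h with ⟨h3, h4⟩ | ⟨h3, h4⟩ <;> rw [h3, h4] at h2 <;> norm_num at h2
    · intro u v h
      refine ⟨(k3 u v h.ne).1, fun h5 => ?_⟩
      by_contra h6
      rcases (k3 u v h.ne).2 h6 with h2 | h2
      · rcases hadj u v h with ⟨h3, h4⟩ | ⟨h3, h4⟩ <;> rw [h3, h4] at h2 <;> norm_num at h2
      · exact absurd h5 (not_le.2 h2)

/-- MEM. -/
theorem mem : S_MEM := ER.InER.of_poly mem_poly mem_correct

end Pool.Agent.N586.LS
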