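import Pool.Agent.N586.LS.Stm

/-!
# Long and short edges on complete bipartite graphs: the reduction
-/

set_option autoImplicit false

namespace Pool.Agent.N586.LS

open Pool.Agent.NPC Pool.Agent.NPC.ER Pool.Agent.NPC.ER.Pat

/-! ### The graph -/

/-- The edges join the rows (labels divisible by `3`) with the other vertices. -/
def al (a b : ℕ) : Bool := if a % 3 = 0 then (if b % 3 = 0 then false else true) else
  (if b % 3 = 0 then true else false)

/-- The edge of row `i` and the vertex `(t, j)` is short. -/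
def sh (M : List (List Bool)) (i t j : ℕ) : Bool :=
  if t = 1 then ent M i j else (decide (i < M.length) && !ent M i j)

/-- The edge `a b` is short. -/
def shB (M : List (List Bool)) (a b : ℕ) : Bool :=
  al a b && (if a % 3 = 0 then sh M (a / 3) (b % 3) (b / 3) else sh M (b / 3) (a % 3) (a / 3))

/-- The vertices. -/
def vtxL (M : List (List Bool)) : List ℕ := vtxH M ++ [3 * M.length, 3 * wid M + 1]

/-- The input of the matrix `M`. -/
def lsG (M : List (List Bool)) : LSCode := (gOf (vtxL M) al, (gOf (vtxL M) (shB M)).2)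

theorem valid_lsG (M : List (List Bool)) : Valid (lsG M) := by
  refine ⟨gOf_wf _ _, ?_⟩
  rintro ⟨a, b⟩ he
  obtain ⟨h1, h2, h3, h4⟩ := mem_gOf.1 he
  refine mem_gOf.2 ⟨h1, h2, h3, ?_⟩
  unfold shB at h4
  exact (Bool.and_eq_true _ _ ▸ h4 : _ ∧ _).1

theorem al_iff (a b : ℕ) : al a b = true ↔ (a % 3 = 0 ↔ b % 3 ≠ 0) := by
  unfold al
  by_cases h1 : a % 3 = 0 <;> by_cases h2 : b % 3 = 0 <;> simp [h1, h2]

theorem adj_lsG {M : List (List Bool)} (u v : (lsG M).1.V) :
    (lsG M).1.graph.Adj u v ↔ (u.1 % 3 = 0 ↔ v.1 % 3 ≠ 0) := by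
  rcases lt_trichotomy u.1 v.1 with h | h | h
  · exact (gOf_adj h).trans (al_iff _ _)
  · have : u = v := Subtype.ext h
    subst this
    simp
  · rw [SimpleGraph.adj_comm]
    refine ((gOf_adj h).trans (al_iff _ _)).trans ?_
    tauto

theorem short_lsG {M : List (List Bool)} {u v : (lsG M).1.V} (hu : u.1 % 3 = 0)
    (hv : v.1 % 3 ≠ 0) : Short (lsG M) u v ↔ sh M (u.1 / 3) (v.1 % 3) (v.1 / 3) = true := by
  unfold Short
  have e1 : ((u.1, v.1) ∈ (lsG M).2) ↔ _ := mem_gOf (V := vtxL M) (adj := shB M)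
  have e2 : ((v.1, u.1) ∈ (lsG M).2) ↔ _ := mem_gOf (V := vtxL M) (adj := shB M)
  have f1 : al u.1 v.1 = true := (al_iff _ _).2 (by simp [hu, hv])
  have f2 : al v.1 u.1 = true := (al_iff _ _).2 (by simp [hu, hv])
  have g1 : shB M u.1 v.1 = sh M (u.1 / 3) (v.1 % 3) (v.1 / 3) := by
    unfold shB; rw [f1, if_pos hu, Bool.true_and]
  have g2 : shB M v.1 u.1 = sh M (u.1 / 3) (v.1 % 3) (v.1 / 3) := by
    unfold shB; rw [f2, if_neg hv, Bool.true_and]
  rw [e1, e2, g1, g2]
  have hne : u.1 ≠ v.1 := fun h => hv (h ▸ hu)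
  have hu' : u.1 ∈ vtxL M := u.2
  have hv' : v.1 ∈ vtxL M := v.2
  rcases lt_or_gt_of_ne hne with h | h
  · constructor
    · rintro (h1 | h1)
      · exact h1.2.2.2
      · exact h1.2.2.2
    · exact fun h1 => Or.inl ⟨hu', hv', h, h1⟩
  · constructor
    · rintro (h1 | h1)
      · exact h1.2.2.2
      · exact h1.2.2.2
    · exact fun h1 => Or.inr ⟨hv', hu', h, h1⟩

theorem row_mem {M : List (List Bool)} {i : ℕ} (hi : i < M.length) : 3 * i ∈ vtxL M :=
  List.mem_append_left _ (mem_of_VH (M := M) (t := 0) (i := i) (Or.inl ⟨rfl, hi⟩))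

theorem colA_mem {M : List (List Bool)} {j : ℕ} (hj : j < wid M) : 3 * j + 1 ∈ vtxL M :=
  List.mem_append_left _ (mem_of_VH (M := M) (t := 1) (i := j) (Or.inr ⟨by omega, by omega, hj⟩))

theorem colB_mem {M : List (List Bool)} {j : ℕ} (hj : j < wid M) : 3 * j + 2 ∈ vtxL M :=
  List.mem_append_left _ (mem_of_VH (M := M) (t := 2) (i := j) (Or.inr ⟨by omega, by omega, hj⟩))

theorem bip_lsG (M : List (List Bool)) : IsCompleteBipartite (lsG M).1.graph := by
  refine ⟨{u | u.1 % 3 = 0}, ⟨⟨3 * M.length, ?_⟩, ?_⟩, ⟨⟨3 * wid M + 1, ?_⟩, ?_⟩, fun u v => ?_⟩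
  · exact List.mem_append_right _ (by simp)
  · show 3 * M.length % 3 = 0
    omega
  · exact List.mem_append_right _ (by simp)
  · show ¬ (3 * wid M + 1) % 3 = 0
    omega
  · exact adj_lsG u v

/-- The labels of the vertices. -/
theorem lab_of_mem {M : List (List Bool)} {a : ℕ} (h : a ∈ vtxL M) :
    (a % 3 = 0 ∧ a / 3 ≤ M.length) ∨ (a % 3 = 1 ∧ a / 3 ≤ wid M) ∨
      (a % 3 = 2 ∧ a / 3 < wid M) := by
  rcases List.mem_append.1 h with h | h
  · rcases VH_of_mem h with ⟨h1, h2⟩ | ⟨h1, h2, h3⟩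
    · left; exact ⟨h1, h2.le⟩
    · right
      have : a % 3 = 1 ∨ a % 3 = 2 := by omega
      rcases this with h4 | h4
      · left; exact ⟨h4, h3.le⟩
      · right; exact ⟨h4, h3⟩
  · simp only [List.mem_cons, List.not_mem_nil, or_false] at h
    rcases h with rfl | rfl
    · left; omega
    · right; left; omega

/-! ### Soundness -/

theorem dist_sq (p q : EuclideanSpace ℝ (Fin 2)) :
    dist p q ^ 2 = (p 0 - q 0) ^ 2 + (p 1 - q 1) ^ 2 := by
  rw [EuclideanSpace.dist_eq, Real.sq_sqrt (by positivity), Fin.sum_univ_two, Real.dist_eq,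
    Real.dist_eq, sq_abs, sq_abs]

theorem SR_of_lsG {m : ℕ} {M : List (List Bool)} (hM : Rect m M)
    {x : (lsG M).1.V → EuclideanSpace ℝ (Fin 2)} (hx : Realizes (lsG M) x) : SR 3 M := by
  classical
  obtain ⟨-, hx⟩ := hx
  obtain ⟨z, hz⟩ : ∃ z : ℕ → EuclideanSpace ℝ (Fin 2), ∀ v : (lsG M).1.V, z v.1 = x v :=
    ⟨fun n => if h : n ∈ (lsG M).1.1 then x ⟨n, h⟩ else 0, fun v => dif_pos v.2⟩
  refine ⟨fun i => ![1, z (3 * i) 0, z (3 * i) 1],
    fun j => ![(z (3 * j + 2) 0) ^ 2 + (z (3 * j + 2) 1) ^ 2 - (z (3 * j + 1) 0) ^ 2 -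
      (z (3 * j + 1) 1) ^ 2, 2 * (z (3 * j + 1) 0 - z (3 * j + 2) 0),
      2 * (z (3 * j + 1) 1 - z (3 * j + 2) 1)], fun i hi j hj => ?_⟩
  have hj' := hj
  rw [wid_eq hM hi] at hj'
  let u : (lsG M).1.V := ⟨3 * i, row_mem hi⟩
  let vA : (lsG M).1.V := ⟨3 * j + 1, colA_mem hj'⟩
  let vB : (lsG M).1.V := ⟨3 * j + 2, colB_mem hj'⟩
  have hu : u.1 % 3 = 0 := by show 3 * i % 3 = 0; omega
  have hA1 : vA.1 % 3 = 1 := by show (3 * j + 1) % 3 = 1; omega
  have hB1 : vB.1 % 3 = 2 := by show (3 * j + 2) % 3 = 2; omega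
  have hA : vA.1 % 3 ≠ 0 := by omega
  have hB : vB.1 % 3 ≠ 0 := by omega
  have d1 : u.1 / 3 = i := by show 3 * i / 3 = i; omega
  have d2 : vA.1 / 3 = j := by show (3 * j + 1) / 3 = j; omega
  have d3 : vB.1 / 3 = j := by show (3 * j + 2) / 3 = j; omega
  have a1 := hx u vA ((adj_lsG _ _).2 (by simp [hu, hA]))
  have a2 := hx u vB ((adj_lsG _ _).2 (by simp [hu, hB]))
  rw [short_lsG hu hA, d1, d2, hA1] at a1
  rw [short_lsG hu hB, d1, d3, hB1] at a2
  have s1 : sh M i 1 j = M[i][j] := by simp [sh, ent_eq hi hj]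
  have s2 : sh M i 2 j = !M[i][j] := by simp [sh, ent_eq hi hj, hi]
  rw [s1, ← hz u, ← hz vA] at a1
  rw [s2, ← hz u, ← hz vB] at a2
  have b1 : dist (z u.1) (z vA.1) ≤ 1 ↔ dist (z u.1) (z vA.1) ^ 2 ≤ 1 :=
    (sq_le_one_iff₀ dist_nonneg).symm
  have b2 : dist (z u.1) (z vB.1) ≤ 1 ↔ dist (z u.1) (z vB.1) ^ 2 ≤ 1 :=
    (sq_le_one_iff₀ dist_nonneg).symm
  rw [b1, dist_sq] at a1
  rw [b2, dist_sq] at a2
  have c1 : (z u.1) = z (3 * i) := rfl
  have c2 : (z vA.1) = z (3 * j + 1) := rfl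
  have c3 : (z vB.1) = z (3 * j + 2) := rfl
  rw [c1, c2] at a1
  rw [c1, c3] at a2
  have e : (![1, z (3 * i) 0, z (3 * i) 1] : Fin 3 → ℝ) ⬝ᵥ
      ![(z (3 * j + 2) 0) ^ 2 + (z (3 * j + 2) 1) ^ 2 - (z (3 * j + 1) 0) ^ 2 -
      (z (3 * j + 1) 1) ^ 2, 2 * (z (3 * j + 1) 0 - z (3 * j + 2) 0),
      2 * (z (3 * j + 1) 1 - z (3 * j + 2) 1)] =
      ((z (3 * i) 0 - z (3 * j + 2) 0) ^ 2 + (z (3 * i) 1 - z (3 * j + 2) 1) ^ 2) -
      ((z (3 * i) 0 - z (3 * j + 1) 0) ^ 2 + (z (3 * i) 1 - z (3 * j + 1) 1) ^ 2) := by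
    simp only [dotProduct, Fin.sum_univ_three, Matrix.cons_val_zero, Matrix.cons_val_one,
      Matrix.cons_val]
    ring
  rw [e]
  cases hb : M[i][j]
  · rw [hb] at a1 a2
    have q1 := fun h => Bool.false_ne_true (a1.2 h)
    have q2 := a2.1 rfl
    rw [sgn_false]
    have q3 := lt_of_not_ge q1
    linarith
  · rw [hb] at a1 a2
    have q1 := a1.1 rfl
    have q2 := fun h => Bool.false_ne_true (a2.2 h)
    rw [sgn_true]
    have q3 := lt_of_not_ge q2
    linarith

/-! ### Completeness -/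

theorem exists_eps {ι : Type} (s : Finset ι) (f : ι → ℝ) :
    ∃ ε : ℝ, 0 < ε ∧ ∀ i ∈ s, 0 < f i → 2 * ε < f i := by
  classical
  induction s using Finset.induction_on with
  | empty => exact ⟨1, one_pos, by simp⟩
  | insert a s _ ih =>
    obtain ⟨ε, h1, h2⟩ := ih
    by_cases ha : 0 < f a
    · refine ⟨min ε (f a / 4), lt_min h1 (by linarith), fun i hi h => ?_⟩
      have m1 := min_le_left ε (f a / 4)
      have m2 := min_le_right ε (f a / 4)
      rcases Finset.mem_insert.1 hi with rfl | hi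
      · linarith
      · have := h2 i hi h
        linarith
    · refine ⟨ε, h1, fun i hi h => ?_⟩
      rcases Finset.mem_insert.1 hi with rfl | hi
      · exact absurd h ha
      · exact h2 i hi h

theorem norm_pt (r : ℝ) (hr : 0 ≤ r) : ‖(!₂[r, 0] : EuclideanSpace ℝ (Fin 2))‖ = r := by
  rw [EuclideanSpace.norm_eq, Fin.sum_univ_two]
  simp [abs_of_nonneg hr, Real.sqrt_sq hr]

theorem exists_bound (P : ℕ → EuclideanSpace ℝ (Fin 2)) (n : ℕ) :
    ∃ R : ℝ, 0 ≤ R ∧ ∀ i < n, ‖P i‖ ≤ R :=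
  ⟨∑ i ∈ Finset.range n, ‖P i‖, Finset.sum_nonneg fun _ _ => norm_nonneg _, fun _ hi =>
    Finset.single_le_sum (f := fun i => ‖P i‖) (fun _ _ => norm_nonneg _) (Finset.mem_range.2 hi)⟩

theorem lsG_of_SRN (geo : S_GEO) (gen : S_GEN) {m : ℕ} {M : List (List Bool)} (hM : Rect m M)
    (h : SRN 2 M) : ∃ x, Realizes (lsG M) x := by
  classical
  obtain ⟨P, A, B, hP⟩ := geo m M hM h
  obtain ⟨R1, hR1, k1⟩ := exists_bound P M.length
  obtain ⟨R2, hR2, k2⟩ := exists_bound A (wid M)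
  obtain ⟨R3, hR3, k3⟩ := exists_bound B (wid M)
  have nQ : ‖(!₂[R2 + R3 + 2, 0] : EuclideanSpace ℝ (Fin 2))‖ = R2 + R3 + 2 :=
    norm_pt _ (by positivity)
  have nQ' : ‖(!₂[R1 + R2 + R3 + 5, 0] : EuclideanSpace ℝ (Fin 2))‖ = R1 + R2 + R3 + 5 :=
    norm_pt _ (by positivity)
  obtain ⟨Q, hQ⟩ : ∃ Q : EuclideanSpace ℝ (Fin 2), Q = !₂[R2 + R3 + 2, 0] := ⟨_, rfl⟩
  obtain ⟨Q', hQ'⟩ : ∃ Q : EuclideanSpace ℝ (Fin 2), Q = !₂[R1 + R2 + R3 + 5, 0] := ⟨_, rfl⟩
  rw [← hQ] at nQ
  rw [← hQ'] at nQ'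
  let x0 : ℕ → EuclideanSpace ℝ (Fin 2) := fun a =>
    if a % 3 = 0 then (if a / 3 < M.length then P (a / 3) else Q) else
    if a % 3 = 1 then (if a / 3 < wid M then A (a / 3) else Q') else B (a / 3)
  have far : ∀ p q : EuclideanSpace ℝ (Fin 2), ‖p‖ + 1 < ‖q‖ → 1 < dist p q := by
    intro p q hpq
    have := norm_sub_norm_le q p
    rw [dist_comm, dist_eq_norm]
    linarith
  have key : ∀ a ∈ vtxL M, ∀ b ∈ vtxL M, a % 3 = 0 → b % 3 ≠ 0 →
      (sh M (a / 3) (b % 3) (b / 3) = true → dist (x0 a) (x0 b) < 1) ∧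
      (sh M (a / 3) (b % 3) (b / 3) = false → 1 < dist (x0 a) (x0 b)) := by
    intro a ha b hb ha0 hb0
    rcases lab_of_mem ha with ⟨-, la⟩ | ⟨h1, -⟩ | ⟨h1, -⟩
    rotate_left
    · omega
    · omega
    have xa : x0 a = if a / 3 < M.length then P (a / 3) else Q := if_pos ha0
    rcases lab_of_mem hb with ⟨h1, -⟩ | ⟨hb1, lb⟩ | ⟨hb2, lb⟩
    · exact absurd h1 hb0
    · have xb : x0 b = if b / 3 < wid M then A (b / 3) else Q' :=
        (if_neg hb0).trans (if_pos hb1)
      have es : sh M (a / 3) (b % 3) (b / 3) = ent M (a / 3) (b / 3) := by simp [sh, hb1]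
      rw [es, xa, xb]
      by_cases la' : a / 3 < M.length
      · by_cases lb' : b / 3 < wid M
        · have hj : b / 3 < M[a / 3].length := by rw [wid_eq hM la']; exact lb'
          rw [if_pos la', if_pos lb', ent_eq la' hj]
          exact ⟨fun h => ((hP _ la' _ hj).1 h).1, fun h => ((hP _ la' _ hj).2 h).1⟩
        · have he : ent M (a / 3) (b / 3) = false := by
            unfold ent
            rw [List.getD_eq_getElem _ _ la']
            apply List.getD_eq_default
            rw [wid_eq hM la']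
            exact not_lt.1 lb'
          rw [if_pos la', if_neg lb', he]
          refine ⟨fun h => absurd h (by simp), fun _ => far _ _ ?_⟩
          have := k1 _ la'
          rw [nQ']
          linarith
      · have he : ent M (a / 3) (b / 3) = false := by
          unfold ent
          rw [List.getD_eq_default _ _ (not_lt.1 la')]
          rfl
        rw [if_neg la', he]
        refine ⟨fun h => absurd h (by simp), fun _ => ?_⟩
        by_cases lb' : b / 3 < wid M
        · rw [if_pos lb', dist_comm]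
          refine far _ _ ?_
          have := k2 _ lb'
          rw [nQ]
          linarith
        · rw [if_neg lb']
          refine far _ _ ?_
          rw [nQ, nQ']
          linarith
    · have xb : x0 b = B (b / 3) := (if_neg hb0).trans (if_neg (by omega))
      have es : sh M (a / 3) (b % 3) (b / 3) =
          (decide (a / 3 < M.length) && !ent M (a / 3) (b / 3)) := by simp [sh, hb2]
      rw [es, xa, xb]
      by_cases la' : a / 3 < M.length
      · have hj : b / 3 < M[a / 3].length := by rw [wid_eq hM la']; exact lb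
        rw [if_pos la', ent_eq la' hj, decide_eq_true la', Bool.true_and]
        constructor
        · intro h
          exact ((hP _ la' _ hj).2 (by simpa using h)).2
        · intro h
          exact ((hP _ la' _ hj).1 (by simpa using h)).2
      · rw [if_neg la', decide_eq_false la', Bool.false_and]
        refine ⟨fun h => absurd h (by simp), fun _ => ?_⟩
        rw [dist_comm]
        refine far _ _ ?_
        have := k3 _ lb
        rw [nQ]
        linarith
  obtain ⟨ε, hε, he⟩ := exists_eps ((vtxL M).toFinset ×ˢ (vtxL M).toFinset)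
    fun p => |dist (x0 p.1) (x0 p.2) - 1|
  obtain ⟨y, y1, y2, y3⟩ := gen (vtxL M).toFinset x0 ε hε
  have key2 : ∀ a ∈ vtxL M, ∀ b ∈ vtxL M, a % 3 = 0 → b % 3 ≠ 0 →
      (sh M (a / 3) (b % 3) (b / 3) = true ↔ dist (y a) (y b) ≤ 1) := by
    intro a ha b hb ha0 hb0
    obtain ⟨c1, c2⟩ := key a ha b hb ha0 hb0
    have e1 := y1 a (List.mem_toFinset.2 ha)
    have e2 := y1 b (List.mem_toFinset.2 hb)
    have e3 := he (a, b) (Finset.mem_product.2 ⟨List.mem_toFinset.2 ha, List.mem_toFinset.2 hb⟩)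
    have t1 := dist_triangle4 (y a) (x0 a) (x0 b) (y b)
    have t2 := dist_triangle4 (x0 a) (y a) (y b) (x0 b)
    have t3 := dist_comm (x0 b) (y b)
    have t4 := dist_comm (x0 a) (y a)
    constructor
    · intro h
      have h1 := c1 h
      simp only at e3
      rw [abs_of_neg (by linarith)] at e3
      have := e3 (by linarith)
      linarith
    · intro h
      by_contra h2
      have h1 := c2 (by simpa using h2)
      simp only at e3
      rw [abs_of_pos (by linarith)] at e3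
      have := e3 (by linarith)
      linarith
  refine ⟨fun u => y u.1, ⟨fun u v huv => ?_, fun u v w huv => ?_⟩, fun u v huv => ?_⟩
  · by_contra hne
    exact y2 u.1 (List.mem_toFinset.2 u.2) v.1 (List.mem_toFinset.2 v.2)
      (fun h => hne (Subtype.ext h)) huv
  · exact y3 u.1 (List.mem_toFinset.2 u.2) v.1 (List.mem_toFinset.2 v.2) w.1
      (List.mem_toFinset.2 w.2) (fun h => huv.ne (Subtype.ext h))
  · have h1 := (adj_lsG u v).1 huv
    by_cases hu : u.1 % 3 = 0
    · have hv := h1.1 hu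
      rw [short_lsG hu hv]
      exact key2 u.1 u.2 v.1 v.2 hu hv
    · have hv : v.1 % 3 = 0 := by
        by_contra hv
        exact hu (h1.2 hv)
      have hs : Short (lsG M) u v ↔ Short (lsG M) v u := by
        unfold Short
        tauto
      rw [hs, short_lsG hv hu, dist_comm]
      exact key2 v.1 v.2 u.1 u.2 hv hu

end Pool.Agent.N586.LS

namespace Pool.Agent.NPC.ER.Pat.N586LS

open Pool.Agent.NPC Pool.Agent.N586.LS

/-! ### Polynomial time -/

theorem poly_al {α : Type} [TEnc α] {a b : α → ℕ} (ha : Poly a) (hb : Poly b) :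
    Poly (fun x => al (a x) (b x)) := by
  unfold al
  have ha1 := Poly.decide_eq (Poly.mod ha (Poly.const 3)) (Poly.const 0)
  have hb1 := Poly.decide_eq (Poly.mod hb (Poly.const 3)) (Poly.const 0)
  exact Poly.ite ha1 (Poly.ite hb1 (Poly.const _) (Poly.const _))
    (Poly.ite hb1 (Poly.const _) (Poly.const _))

theorem poly_sh {α : Type} [TEnc α] {M : α → List (List Bool)} {i t j : α → ℕ}
    (hM : Poly M) (hi : Poly i) (ht : Poly t) (hj : Poly j) :
    Poly (fun a => sh (M a) (i a) (t a) (j a)) := by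
  unfold sh
  exact Poly.ite (Poly.decide_eq ht (Poly.const _)) (poly_ent hM hi hj)
    (Poly.and (Poly.decide_lt hi (Poly.length hM)) (Poly.not (poly_ent hM hi hj)))

theorem poly_shB : Poly (fun p : (List (List Bool) × ℕ) × ℕ => shB p.1.1 p.1.2 p.2) := by
  unfold shB
  have hM : Poly (fun p : (List (List Bool) × ℕ) × ℕ => p.1.1) := Poly.fst (Poly.fst Poly.id)
  have ha : Poly (fun p : (List (List Bool) × ℕ) × ℕ => p.1.2) := Poly.snd (Poly.fst Poly.id)
  have hb : Poly (fun p : (List (List Bool) × ℕ) × ℕ => p.2) := Poly.snd Poly.id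
  have ha1 := Poly.mod ha (Poly.const 3)
  have ha2 := Poly.div ha (Poly.const 3)
  have hb1 := Poly.mod hb (Poly.const 3)
  have hb2 := Poly.div hb (Poly.const 3)
  exact Poly.and (poly_al ha hb) (Poly.ite (Poly.decide_eq ha1 (Poly.const 0))
    (poly_sh hM ha2 hb1 hb2) (poly_sh hM hb2 ha1 ha2))

theorem poly_wid : Poly wid := by
  unfold wid
  exact Poly.length (poly_headD Poly.id)

theorem poly_vtxL : Poly vtxL := by
  unfold vtxL
  refine Poly.append poly_vtxH (Poly.cons (Poly.mul (Poly.const 3) (Poly.length Poly.id))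
    (Poly.cons (Poly.add (Poly.mul (Poly.const 3) poly_wid) (Poly.const 1)) (Poly.const [])))

theorem poly_lsG : Poly lsG := by
  refine Poly.pair (poly_gOf (adj := fun _ => al) poly_vtxL
    (poly_al (Poly.snd (Poly.fst Poly.id)) (Poly.snd Poly.id))) ?_
  exact Poly.snd (poly_gOf (adj := shB) poly_vtxL poly_shB)

/-! ### Hardness -/

theorem hard_of (geo : S_GEO) (gen : S_GEN) : ERHard LongShortBip := by
  refine ERHard.of_sys (f := fun S => lsG (matOf Sgn.patOf 0 S))
    (poly_lsG.comp (isPatOf.poly_matOf 0)) fun S => ?_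
  obtain ⟨m, hm⟩ := rect_matOf Sgn.patOf 0 S
  constructor
  · intro hS
    exact ⟨valid_lsG _, bip_lsG _, lsG_of_SRN geo gen hm (isPatOf.srn (k := 0) hS)⟩
  · rintro ⟨-, -, x, hx⟩
    exact isPatOf.sat (k := 0) (SR_of_lsG hm hx)

end Pool.Agent.NPC.ER.Pat.N586LS
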