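import Pool.Agent.H625R2.HypFin

/-!
# Long and short edges on complete bipartite graphs: definitions and statements of the parts
-/

set_option autoImplicit false

namespace Pool.Agent.N586.LS

open Pool.Agent.NPC Pool.Agent.NPC.ER Pool.Agent.NPC.ER.Pat

/-- An input: a graph, given by the list of its vertices and the list of its edges, together with the
list of its short edges. -/
abbrev LSCode := GCode × List (ℕ × ℕ)

/-- The edge `uv` is short. -/
def Short (c : LSCode) (u v : c.1.V) : Prop := (u.1, v.1) ∈ c.2 ∨ (v.1, u.1) ∈ c.2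

/-- The edges join different vertices of the list, and the short edges are edges. -/
def Valid (c : LSCode) : Prop := c.1.WF ∧ ∀ e ∈ c.2, e ∈ c.1.2

/-- `G` is a complete bipartite graph `K_{m,n}` with `m, n ≥ 1`: the vertices are the disjoint union
of two nonempty sets, and the edges are all the pairs of a vertex of one set and one of the other. -/
def IsCompleteBipartite {V : Type} (G : SimpleGraph V) : Prop :=
  ∃ A : Set V, A.Nonempty ∧ Aᶜ.Nonempty ∧ ∀ u v, G.Adj u v ↔ (u ∈ A ↔ v ∉ A)

/-- `x` is a (non-degenerate) straight-line drawing: different vertices are at different points and no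
vertex lies in the relative interior of a segment which represents an edge. -/
def IsDrawing {V : Type} (G : SimpleGraph V) (x : V → EuclideanSpace ℝ (Fin 2)) : Prop :=
  Function.Injective x ∧ ∀ u v w, G.Adj u v → x w ∉ openSegment ℝ (x u) (x v)

/-- The edges of length at most `1` are exactly the short ones. -/
def Realizes (c : LSCode) (x : c.1.V → EuclideanSpace ℝ (Fin 2)) : Prop :=
  IsDrawing c.1.graph x ∧ ∀ u v, c.1.graph.Adj u v → (Short c u v ↔ dist (x u) (x v) ≤ 1)

/-- Long/short edge realizability, restricted to the inputs whose underlying graph is a complete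
bipartite graph. -/
def LongShortBip : Set (List Bool) :=
  lang fun c : LSCode => Valid c ∧ IsCompleteBipartite c.1.graph ∧ ∃ x, Realizes c x

/-- GEO: the points and unit circles of a sign matrix in the plane. -/
def S_GEO : Prop := ∀ (m : ℕ) (M : List (List Bool)), Rect m M → SRN 2 M →
  ∃ P A B : ℕ → EuclideanSpace ℝ (Fin 2), ∀ i (hi : i < M.length) j (hj : j < M[i].length),
    (M[i][j] = true → dist (P i) (A j) < 1 ∧ 1 < dist (P i) (B j)) ∧
    (M[i][j] = false → 1 < dist (P i) (A j) ∧ dist (P i) (B j) < 1)

/-- GEN: small perturbations into general position. -/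
def S_GEN : Prop := ∀ (V : Finset ℕ) (x : ℕ → EuclideanSpace ℝ (Fin 2)) (ε : ℝ), 0 < ε →
  ∃ y : ℕ → EuclideanSpace ℝ (Fin 2), (∀ n ∈ V, dist (y n) (x n) < ε) ∧
    (∀ u ∈ V, ∀ v ∈ V, u ≠ v → y u ≠ y v) ∧
    (∀ u ∈ V, ∀ v ∈ V, ∀ w ∈ V, u ≠ v → y w ∉ openSegment ℝ (y u) (y v))

/-- MEM: membership in `∃ℝ`. -/
def S_MEM : Prop := InER LongShortBip

end Pool.Agent.N586.LS
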